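import Mathlib
import Pool.Agent.H958.RL.Stm
import Pool.Graph.R_seed8.W657.RD.PBas

/-!
# Project RL: GROW (induction over the blocks of the growth process)
-/

set_option autoImplicit false

namespace Pool.Agent.H671.RL.Grow

open Finset
open scoped Classical
open Pool.Agent.W830.RD (Om gle Pr S_PBAS)
open Pool.Agent.H958.RL

theorem gle_mono {n : ℕ} {E E' : Finset (Fin n × Fin n)} (h : E ⊆ E') {x y : Fin n}
    (hxy : gle E x y) : gle E' x y := by
  induction hxy with
  | refl => exact Relation.ReflTransGen.refl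
  | tail _ h2 ih => exact Relation.ReflTransGen.tail ih (h h2)

theorem mem_Wr {n : ℕ} {E : Finset (Fin n × Fin n)} {F : Finset (Fin n)} {s t : ℕ} {v : Fin n} :
    v ∈ Wr E F s t ↔ ∃ u ∈ F, gle (seg E s t) u v := by
  simp [Wr]

theorem mem_seg {n : ℕ} {E : Finset (Fin n × Fin n)} {s t : ℕ} {e : Fin n × Fin n} :
    e ∈ seg E s t ↔ e ∈ E ∧ s ≤ (e.2 : ℕ) ∧ (e.2 : ℕ) < t := by
  simp [seg]

theorem seg_mono {n : ℕ} (E : Finset (Fin n × Fin n)) {s t t' : ℕ} (h : t ≤ t') :
    seg E s t ⊆ seg E s t' := by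
  intro e he
  rw [mem_seg] at he ⊢
  exact ⟨he.1, he.2.1, lt_of_lt_of_le he.2.2 h⟩

theorem Wr_lt {n : ℕ} {E : Finset (Fin n × Fin n)} {F : Finset (Fin n)} {s t : ℕ}
    (hF : ∀ u ∈ F, (u : ℕ) < s) (hst : s ≤ t) {v : Fin n} (hv : v ∈ Wr E F s t) :
    (v : ℕ) < t := by
  rw [mem_Wr] at hv
  obtain ⟨u, hu, h⟩ := hv
  rcases Relation.ReflTransGen.cases_tail h with h1 | ⟨w, _, hw⟩
  · rw [h1]
    exact lt_of_lt_of_le (hF u hu) hst
  · exact (mem_seg.1 hw).2.2

theorem card_step {n : ℕ} (E : Finset (Fin n × Fin n)) (F : Finset (Fin n)) (s z L : ℕ)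
    (hF : ∀ u ∈ F, (u : ℕ) < s) (hsz : s ≤ z) :
    (Wr E F s z).card + nb E (Wr E F s z) z (z + L) ≤ (Wr E F s (z + L)).card := by
  unfold nb
  rw [← Finset.card_union_of_disjoint]
  · apply Finset.card_le_card
    intro v hv
    rw [mem_union] at hv
    rcases hv with hv | hv
    · rw [mem_Wr] at hv ⊢
      obtain ⟨u, hu, h⟩ := hv
      exact ⟨u, hu, gle_mono (seg_mono E (Nat.le_add_right z L)) h⟩
    · simp only [mem_filter, mem_univ, true_and] at hv
      obtain ⟨hv1, hv2, u, hu, hE⟩ := hv
      rw [mem_Wr] at hu ⊢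
      obtain ⟨u0, hu0, h⟩ := hu
      refine ⟨u0, hu0, Relation.ReflTransGen.tail
        (gle_mono (seg_mono E (Nat.le_add_right z L)) h) ?_⟩
      rw [mem_seg]
      exact ⟨hE, le_trans hsz hv1, hv2⟩
  · rw [Finset.disjoint_left]
    intro v hv hv2
    have h1 := Wr_lt hF hsz hv
    simp only [mem_filter, mem_univ, true_and] at hv2
    omega

theorem main (h1 : S_COND) (h2 : S_BLK) : S_GROW := by
  intro p f η n s L J F hp hp1 hf hη hη2 hfF hFs hn hpf
  obtain ⟨_, hP0, hPm, hPu, _, _⟩ := Pool.Agent.W657.RD.PBas.main p n hp hp1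
  set g : ℝ := 1 + (1 - 2 * η) * (L * p) with hg
  have hL0 : (0 : ℝ) ≤ L := Nat.cast_nonneg L
  have hLp : 0 ≤ (1 - 2 * η) * ((L : ℝ) * p) :=
    mul_nonneg (by linarith) (mul_nonneg hL0 hp.le)
  have hg1 : 1 ≤ g := by rw [hg]; linarith
  clear_value g
  induction J with
  | zero =>
    have hz : Pr p n (fun E => ((Wr E F s (s + 0 * L)).card : ℝ) < f * g ^ 0) ≤
        Pr p n (fun _ => False) := by
      apply hPm
      intro E _ hE
      have hsub : F ⊆ Wr E F s (s + 0 * L) := by
        intro u hu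
        rw [mem_Wr]
        exact ⟨u, hu, Relation.ReflTransGen.refl⟩
      have hc : (F.card : ℝ) ≤ (Wr E F s (s + 0 * L)).card := by
        exact_mod_cast Finset.card_le_card hsub
      simp only [pow_zero, mul_one] at hE
      linarith
    have hz0 : Pr p n (fun _ => False) = 0 := by simp [Pr]
    rw [hz0] at hz
    simpa using hz
  | succ J ih =>
    have hgJ : 1 ≤ g ^ J := one_le_pow₀ hg1
    set fJ : ℝ := f * g ^ J with hfJ
    have hffJ : f ≤ fJ := by
      rw [hfJ]; nlinarith
    have hfJ0 : 0 < fJ := lt_of_lt_of_le hf hffJ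
    have hfJ1 : f * g ^ (J + 1) = fJ + (1 - 2 * η) * (L * p * fJ) := by
      rw [hfJ, pow_succ]
      rw [show f * (g ^ J * g) = f * g ^ J * g from by ring]
      rw [hg]
      ring
    have hle1 : fJ ≤ f * g ^ (J + 1) := by
      rw [hfJ1]
      have : 0 ≤ (1 - 2 * η) * (L * p * fJ) := by
        have := mul_nonneg hLp hfJ0.le
        calc (0 : ℝ) ≤ (1 - 2 * η) * (L * p) * fJ := this
          _ = _ := by ring
      linarith
    have hpfJ : p * fJ ≤ η := le_trans (mul_le_mul_of_nonneg_left hle1 hp.le) hpf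
    have hnz : s + J * L + L ≤ n := by
      have : s + (J + 1) * L = s + J * L + L := by ring
      omega
    have ih' := ih (by omega) hpfJ
    set z : ℕ := s + J * L with hz
    have hsz : s ≤ z := by omega
    have hzL : s + (J + 1) * L = z + L := by rw [hz]; ring
    rw [hzL]
    set S : Finset (Fin n × Fin n) :=
      (Om n).filter (fun e => z ≤ (e.2 : ℕ) ∧ (e.2 : ℕ) < z + L) with hS
    set Q : Finset (Fin n × Fin n) → Finset (Fin n × Fin n) → Prop := fun E1 E2 =>
      fJ ≤ ((Wr E1 F s z).card : ℝ) ∧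
        (nb E2 (Wr E1 F s z) z (z + L) : ℝ) < (1 - 2 * η) * (L * p * fJ) with hQ
    have hcond : Pr p n (fun E => Q (E \ S) (E ∩ S)) ≤
        Real.exp (-(η ^ 2 * (L * p * f) / 4)) := by
      apply h1 p _ n S Q hp hp1
      intro E1 _
      by_cases hc : fJ ≤ ((Wr E1 F s z).card : ℝ)
      · have hb := h2 p fJ η n z L (Wr E1 F s z) hp hp1 hfJ0 hη hη2 hc
          (fun u hu => Wr_lt hFs hsz hu) hnz hpfJ
        have hm : Pr p n (fun E => Q E1 (E ∩ S)) ≤
            Pr p n (fun E => (nb E (Wr E1 F s z) z (z + L) : ℝ) <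
              (1 - 2 * η) * (L * p * fJ)) := by
          apply hPm
          intro E hE hq
          have hnb : nb (E ∩ S) (Wr E1 F s z) z (z + L) = nb E (Wr E1 F s z) z (z + L) := by
            unfold nb
            congr 1
            ext v
            simp only [mem_filter, mem_univ, true_and]
            constructor
            · rintro ⟨ha, hb, u, hu, hE⟩
              exact ⟨ha, hb, u, hu, (mem_inter.1 hE).1⟩
            · rintro ⟨ha, hb, u, hu, hE'⟩
              refine ⟨ha, hb, u, hu, mem_inter.2 ⟨hE', ?_⟩⟩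
              rw [hS, mem_filter]
              exact ⟨hE hE', ha, hb⟩
          rw [← hnb]
          exact hq.2
        refine le_trans hm (le_trans hb ?_)
        apply Real.exp_le_exp.2
        have : η ^ 2 * (L * p * f) ≤ η ^ 2 * (L * p * fJ) := by
          apply mul_le_mul_of_nonneg_left _ (by positivity)
          exact mul_le_mul_of_nonneg_left hffJ (mul_nonneg hL0 hp.le)
        linarith
      · have hm : Pr p n (fun E => Q E1 (E ∩ S)) ≤ Pr p n (fun _ => False) := by
          apply hPm
          intro E _ hq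
          exact hc hq.1
        have hz0 : Pr p n (fun _ => False) = 0 := by simp [Pr]
        rw [hz0] at hm
        exact le_trans hm (Real.exp_pos _).le
    have hsplit : Pr p n (fun E => ((Wr E F s (z + L)).card : ℝ) < f * g ^ (J + 1)) ≤
        Pr p n (fun E => ((Wr E F s z).card : ℝ) < fJ ∨ Q (E \ S) (E ∩ S)) := by
      apply hPm
      intro E hE hlt
      by_cases hc : ((Wr E F s z).card : ℝ) < fJ
      · exact Or.inl hc
      · right
        have hseg : seg (E \ S) s z = seg E s z := by
          ext e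
          rw [mem_seg, mem_seg, mem_sdiff, hS, mem_filter]
          constructor
          · rintro ⟨⟨h, _⟩, h'⟩
            exact ⟨h, h'⟩
          · rintro ⟨h, h'⟩
            refine ⟨⟨h, ?_⟩, h'⟩
            rintro ⟨_, h3, _⟩
            omega
        have hWr : Wr (E \ S) F s z = Wr E F s z := by
          unfold Wr
          rw [hseg]
        have hnb : nb (E ∩ S) (Wr E F s z) z (z + L) = nb E (Wr E F s z) z (z + L) := by
          unfold nb
          congr 1
          ext v
          simp only [mem_filter, mem_univ, true_and]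
          constructor
          · rintro ⟨ha, hb, u, hu, hE⟩
            exact ⟨ha, hb, u, hu, (mem_inter.1 hE).1⟩
          · rintro ⟨ha, hb, u, hu, hE'⟩
            refine ⟨ha, hb, u, hu, mem_inter.2 ⟨hE', ?_⟩⟩
            rw [hS, mem_filter]
            exact ⟨hE hE', ha, hb⟩
        show fJ ≤ ((Wr (E \ S) F s z).card : ℝ) ∧
          (nb (E ∩ S) (Wr (E \ S) F s z) z (z + L) : ℝ) < (1 - 2 * η) * (L * p * fJ)
        rw [hWr, hnb]
        refine ⟨not_lt.1 hc, ?_⟩
        by_contra hn2
        have hcs := card_step E F s z L hFs hsz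
        have hcs' : ((Wr E F s z).card : ℝ) + (nb E (Wr E F s z) z (z + L) : ℝ) ≤
            ((Wr E F s (z + L)).card : ℝ) := by exact_mod_cast hcs
        have h5 := not_lt.1 hc
        have h6 := not_lt.1 hn2
        rw [hfJ1] at hlt
        linarith
    refine le_trans hsplit (le_trans (hPu _ _) ?_)
    push_cast
    have := add_le_add ih' hcond
    refine le_trans this ?_
    rw [add_mul, one_mul]

end Pool.Agent.H671.RL.Grow
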